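import Pool.Agent.Helper63.KK.Defs
import Pool.Agent.Helper99.BD.Defs

/-!
# Unramified extensions of `ℚ_p` (Helper71, row K4b of project KK)

`ZC.KK.exists_unramified` : if `Fl` is a union of finite Galois extensions of `F_p` of degree prime
to `l`, then the field of fractions of `WF p F_p Fl` is such an extension of `ℚ_p`.
-/

set_option autoImplicit false

namespace ZC.KK

open Module

variable {p : ℕ} [hp : Fact p.Prime]

/-- `ℤ_p` inside of the Witt vectors. -/
noncomputable def zpHom (p : ℕ) [Fact p.Prime] (E : Type) [Field E] [Algebra (ZMod p) E] :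
    ℤ_[p] →+* WittVector p E :=
  (WittVector.map (algebraMap (ZMod p) E)).comp (WittVector.equiv p).symm.toRingHom

theorem zpHom_injective (E : Type) [Field E] [Algebra (ZMod p) E] :
    Function.Injective (zpHom p E) :=
  (WittVector.map_injective _ (algebraMap (ZMod p) E).injective).comp
    (WittVector.equiv p).symm.injective

theorem mem_range_zpHom {E : Type} [Field E] [Algebra (ZMod p) E] {x : WittVector p E}
    (h : ∀ n, x.coeff n ∈ (algebraMap (ZMod p) E).range) : x ∈ (zpHom p E).range := by
  choose y hy using h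
  refine ⟨WittVector.equiv p (WittVector.mk p y), ?_⟩
  ext n
  rw [zpHom, RingHom.comp_apply, RingEquiv.toRingHom_eq_coe, RingHom.coe_coe,
    RingEquiv.symm_apply_apply, WittVector.map_coeff, WittVector.coeff_mk, hy]

theorem charP_of_alg (E : Type) [Field E] [Algebra (ZMod p) E] : CharP E p :=
  charP_of_injective_algebraMap (algebraMap (ZMod p) E).injective p

/-- The action of the Galois group of `E` on the Witt vectors over `E`. -/
@[reducible] noncomputable def wittAction (p : ℕ) [Fact p.Prime] (E : Type) [Field E]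
    [Algebra (ZMod p) E] : MulSemiringAction (E ≃ₐ[ZMod p] E) (WittVector p E) where
  smul g x := WittVector.map (g : E →+* E) x
  one_smul x := by
    change WittVector.map _ x = x
    ext n
    rw [WittVector.map_coeff]
    rfl
  mul_smul g h x := by
    change WittVector.map _ x = WittVector.map _ (WittVector.map _ x)
    ext n
    rw [WittVector.map_coeff, WittVector.map_coeff, WittVector.map_coeff]
    rfl
  smul_zero g := map_zero (WittVector.map (g : E →+* E))
  smul_add g := map_add (WittVector.map (g : E →+* E))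
  smul_one g := map_one (WittVector.map (g : E →+* E))
  smul_mul g := map_mul (WittVector.map (g : E →+* E))

theorem galois_frac {E : Type} [Field E] [Algebra (ZMod p) E] [FiniteDimensional (ZMod p) E]
    [IsGalois (ZMod p) E] (L : Type) [Field L] [Algebra (WittVector p E) L]
    [IsFractionRing (WittVector p E) L] [Algebra ℚ_[p] L]
    (h : ∀ a : ℤ_[p], algebraMap ℚ_[p] L a = algebraMap (WittVector p E) L (zpHom p E a)) :
    IsGalois ℚ_[p] L ∧ FiniteDimensional ℚ_[p] L ∧ finrank ℚ_[p] L = finrank (ZMod p) E := by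
  have : CharP E p := charP_of_alg E
  let _ : Algebra ℤ_[p] (WittVector p E) := (zpHom p E).toAlgebra
  let _ : Algebra ℤ_[p] L := ((algebraMap ℚ_[p] L).comp (algebraMap ℤ_[p] ℚ_[p])).toAlgebra
  have : IsScalarTower ℤ_[p] ℚ_[p] L := IsScalarTower.of_algebraMap_eq fun a => rfl
  have : IsScalarTower ℤ_[p] (WittVector p E) L := IsScalarTower.of_algebraMap_eq fun a => h a
  let _ := wittAction p E
  let _ := IsFractionRing.mulSemiringAction (E ≃ₐ[ZMod p] E) (WittVector p E) L
  have h1 : IsGaloisGroup (E ≃ₐ[ZMod p] E) ℤ_[p] (WittVector p E) :=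
    { faithful := by
        refine ⟨fun {g h} hgh => ?_⟩
        ext e
        have h2 := congrArg (fun x => WittVector.coeff x 0) (hgh (WittVector.teichmuller p e))
        change (WittVector.map _ _).coeff 0 = (WittVector.map _ _).coeff 0 at h2
        rw [WittVector.map_coeff, WittVector.map_coeff, WittVector.teichmuller_coeff_zero] at h2
        exact h2
      commutes := by
        refine ⟨fun g a x => ?_⟩
        rw [Algebra.smul_def, Algebra.smul_def, smul_mul']
        congr 1
        change WittVector.map _ (zpHom p E a) = zpHom p E a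
        rw [zpHom]
        ext n
        rw [WittVector.map_coeff, RingHom.comp_apply, WittVector.map_coeff]
        exact g.commutes _
      isInvariant := by
        refine ⟨fun x hx => ?_⟩
        refine mem_range_zpHom fun n => ?_
        have h2 : ∀ g : E ≃ₐ[ZMod p] E, g (x.coeff n) = x.coeff n := by
          intro g
          have h3 := congrArg (fun x => WittVector.coeff x n) (hx g)
          change (WittVector.map _ _).coeff n = _ at h3
          rw [WittVector.map_coeff] at h3
          exact h3
        have h4 := (IsGalois.mem_bot_iff_fixed (F := ZMod p) (x.coeff n)).2 h2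
        exact IntermediateField.mem_bot.1 h4 }
  have h2 : IsGaloisGroup (E ≃ₐ[ZMod p] E) ℚ_[p] L :=
    IsGaloisGroup.to_isFractionRing (E ≃ₐ[ZMod p] E) ℤ_[p] (WittVector p E) ℚ_[p] L
  refine ⟨IsGaloisGroup.isGalois (E ≃ₐ[ZMod p] E) ℚ_[p] L,
    IsGaloisGroup.finiteDimensional (E ≃ₐ[ZMod p] E) ℚ_[p] L, ?_⟩
  rw [← IsGaloisGroup.card_eq_finrank (E ≃ₐ[ZMod p] E) ℚ_[p] L, IsGalois.card_aut_eq_finrank]

section

variable {Fl : Type} [Field Fl] [Algebra (ZMod p) Fl]

/-- A finite set which controls the components. -/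
theorem exists_finset (x : WF p (ZMod p) Fl) : ∃ T : Finset Fl,
    ∀ E : IntermediateField (ZMod p) Fl, (T : Set Fl) ⊆ E → ∀ n, x.1.coeff n ∈ E := by
  obtain ⟨E, hE, hx⟩ := x.2
  obtain ⟨T, hT⟩ := IntermediateField.essFiniteType_iff.1
    (inferInstance : Algebra.EssFiniteType (ZMod p) E)
  refine ⟨T, fun E' hE' n => ?_⟩
  have h1 : E ≤ E' := by
    rw [← hT]
    exact IntermediateField.adjoin_le_iff.2 hE'
  exact h1 (hx n)

/-- The Witt vectors over a finite subextension. -/
noncomputable def inWF (E : IntermediateField (ZMod p) Fl) [FiniteDimensional (ZMod p) E] :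
    WittVector p E →+* WF p (ZMod p) Fl :=
  (WittVector.map (algebraMap E Fl)).codRestrict (WF p (ZMod p) Fl)
    fun y => ⟨E, inferInstance, coeff_mem E y⟩

theorem inWF_injective (E : IntermediateField (ZMod p) Fl) [FiniteDimensional (ZMod p) E] :
    Function.Injective (inWF (p := p) E) := by
  intro a b hab
  exact WittVector.map_injective _ (algebraMap E Fl).injective (congrArg Subtype.val hab)

/-- `ℤ_p` inside of `WF`. -/
noncomputable def zpWF : ℤ_[p] →+* WF p (ZMod p) Fl :=
  (zpHom p Fl).codRestrict (WF p (ZMod p) Fl) fun a => ⟨⊥, inferInstance, fun n => by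
    rw [zpHom, RingHom.comp_apply, WittVector.map_coeff]
    exact IntermediateField.algebraMap_mem _ _⟩

theorem zpWF_injective : Function.Injective (zpWF (p := p) (Fl := Fl)) := fun _ _ hab =>
  zpHom_injective Fl (congrArg Subtype.val hab)

theorem inWF_zpHom (E : IntermediateField (ZMod p) Fl) [FiniteDimensional (ZMod p) E]
    (a : ℤ_[p]) : inWF E (zpHom p E a) = zpWF a := by
  apply Subtype.ext
  change WittVector.map (algebraMap E Fl) (zpHom p E a) = zpHom p Fl a
  ext n
  rw [WittVector.map_coeff, zpHom, zpHom, RingHom.comp_apply, RingHom.comp_apply,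
    WittVector.map_coeff, WittVector.map_coeff]
  exact (IsScalarTower.algebraMap_apply (ZMod p) E Fl _).symm

end

/-- **Row K4b.** -/
theorem exists_unramified (p : ℕ) [Fact p.Prime] {l : ℕ} (Fl : Type) [Field Fl]
    [Algebra (ZMod p) Fl] (h : PrimeTo l (ZMod p) Fl) :
    ∃ (M : Type) (_ : Field M) (_ : Algebra ℚ_[p] M) (_ : Algebra (WF p (ZMod p) Fl) M),
      IsFractionRing (WF p (ZMod p) Fl) M ∧ PrimeTo l ℚ_[p] M := by
  classical
  have : CharP Fl p := charP_of_alg Fl
  have hdom : IsDomain (WF p (ZMod p) Fl) := inferInstance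
  let M := FractionRing (WF p (ZMod p) Fl)
  let hinj : Function.Injective ((algebraMap (WF p (ZMod p) Fl) M).comp (zpWF (p := p))) :=
    (IsFractionRing.injective (WF p (ZMod p) Fl) M).comp zpWF_injective
  let φ : ℚ_[p] →+* M := IsFractionRing.lift (A := ℤ_[p]) (K := ℚ_[p]) hinj
  let algM : Algebra ℚ_[p] M := φ.toAlgebra
  have hφ : ∀ a : ℤ_[p], algebraMap ℚ_[p] M a =
      algebraMap (WF p (ZMod p) Fl) M (zpWF a) := fun a =>
    IsFractionRing.lift_algebraMap hinj a
  refine ⟨M, inferInstance, algM, inferInstance, inferInstance, ?_⟩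
  intro s
  -- numerators and denominators
  have hfrac : ∀ m : M, ∃ T : Finset Fl, ∀ E : IntermediateField (ZMod p) Fl,
      (T : Set Fl) ⊆ E → ∃ a b : WF p (ZMod p) Fl, (∀ n, a.1.coeff n ∈ E) ∧
        (∀ n, b.1.coeff n ∈ E) ∧ m = algebraMap _ M a / algebraMap _ M b := by
    intro m
    obtain ⟨a, b, -, rfl⟩ := IsFractionRing.div_surjective (A := WF p (ZMod p) Fl) m
    obtain ⟨T, hT⟩ := exists_finset a
    obtain ⟨T', hT'⟩ := exists_finset b
    refine ⟨T ∪ T', fun E hE => ⟨a, b, hT E fun x hx => hE ?_, hT' E fun x hx => hE ?_, rfl⟩⟩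
    · rw [Finset.coe_union]
      exact Or.inl hx
    · rw [Finset.coe_union]
      exact Or.inr hx
  choose T hT using hfrac
  obtain ⟨E, hE, hfin, hgal, hcop⟩ := h (s.biUnion T)
  have hCE : CharP E p := charP_of_alg E
  let L := FractionRing (WittVector p E)
  let hinjL : Function.Injective ((algebraMap (WittVector p E) L).comp (zpHom p E)) :=
    (IsFractionRing.injective (WittVector p E) L).comp (zpHom_injective E)
  let algL : Algebra ℚ_[p] L :=
    (IsFractionRing.lift (A := ℤ_[p]) (K := ℚ_[p]) hinjL).toAlgebra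
  have hL : ∀ a : ℤ_[p], algebraMap ℚ_[p] L a = algebraMap (WittVector p E) L (zpHom p E a) :=
    fun a => IsFractionRing.lift_algebraMap hinjL a
  obtain ⟨g1, g2, g3⟩ := galois_frac L hL
  -- the embedding of `L` into `M`
  let hinjJ : Function.Injective ((algebraMap (WF p (ZMod p) Fl) M).comp (inWF E)) :=
    (IsFractionRing.injective (WF p (ZMod p) Fl) M).comp (inWF_injective E)
  let j : L →+* M := IsFractionRing.lift (A := WittVector p E) (K := L) hinjJ
  have hj : ∀ a, j (algebraMap (WittVector p E) L a) = algebraMap _ M (inWF E a) := fun a =>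
    IsFractionRing.lift_algebraMap hinjJ a
  have hcomp : j.comp (algebraMap ℚ_[p] L) = algebraMap ℚ_[p] M := by
    apply IsLocalization.ringHom_ext (nonZeroDivisors ℤ_[p])
    ext a
    rw [RingHom.comp_apply, RingHom.comp_apply, RingHom.comp_apply]
    have h1 : (algebraMap ℤ_[p] ℚ_[p]) a = (a : ℚ_[p]) := rfl
    rw [h1, hL, hφ, hj, inWF_zpHom]
  let J : L →ₐ[ℚ_[p]] M := { j with commutes' := fun r => congrArg (fun f => f r) hcomp }
  let e : L ≃ₐ[ℚ_[p]] J.fieldRange := AlgEquiv.ofInjectiveField J
  refine ⟨J.fieldRange, ?_, ?_, ?_, ?_⟩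
  · intro m hm
    obtain ⟨a, b, ha, hb, hab⟩ := hT m E fun x hx => hE (by
      rw [Finset.coe_biUnion]
      exact Set.mem_biUnion hm hx)
    obtain ⟨a', ha'⟩ := exists_map E ha
    obtain ⟨b', hb'⟩ := exists_map E hb
    have ha2 : inWF E a' = a := Subtype.ext ha'
    have hb2 : inWF E b' = b := Subtype.ext hb'
    refine ⟨algebraMap _ L a' / algebraMap _ L b', ?_⟩
    change j _ = m
    rw [map_div₀, hj, hj, ha2, hb2, hab]
  · exact Module.Finite.equiv e.toLinearEquiv
  · exact IsGalois.of_algEquiv e
  · rw [← e.toLinearEquiv.finrank_eq, g3]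
    exact hcop

end ZC.KK
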